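import Mathlib

namespace Pool.Agent.Results.MP_52e642_an.WeakShanksFalse

open MvPolynomial

/-- The norm of `H^2(D^2)` on polynomials: the square root of the sum of the squared moduli
of the coefficients. -/
noncomputable def hardyNorm (p : MvPolynomial (Fin 2) ℂ) : ℝ :=
  Real.sqrt (∑ m ∈ p.support, ‖coeff m p‖ ^ 2)

/-- Position, counted from 0, of the monomial `z1 ^ (m 0) * z2 ^ (m 1)` in the
degree-lexicographic ordering `1, z1, z2, z1^2, z1 z2, z2^2, z1^3, ...`. -/
def degLexPos (m : Fin 2 →₀ ℕ) : ℕ := (m 0 + m 1) * (m 0 + m 1 + 1) / 2 + m 1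

/-- The space `P_n`: the linear span of the first `n + 1` monomials. -/
noncomputable def approxSpace (n : ℕ) : Submodule ℂ (MvPolynomial (Fin 2) ℂ) :=
  Submodule.span ℂ {p | ∃ m : Fin 2 →₀ ℕ, degLexPos m ≤ n ∧ p = monomial m 1}

/-- `q` is an `n`-th optimal polynomial approximant of `1/f` in `H^2(D^2)`. -/
def IsOPA (n : ℕ) (f q : MvPolynomial (Fin 2) ℂ) : Prop :=
  q ∈ approxSpace n ∧ ∀ p ∈ approxSpace n, hardyNorm (q * f - 1) ≤ hardyNorm (p * f - 1)

/-- exponent vector `(j,k)` -/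
noncomputable def e (j k : ℕ) : Fin 2 →₀ ℕ := Finsupp.single 0 j + Finsupp.single 1 k

lemma e_zero (j k : ℕ) : e j k 0 = j := by simp [e]
lemma e_one (j k : ℕ) : e j k 1 = k := by simp [e]

lemma e_inj {j k j' k' : ℕ} : e j k = e j' k' ↔ j = j' ∧ k = k' := by
  constructor
  · intro h
    have h0 := congrArg (fun m => m 0) h
    have h1 := congrArg (fun m => m 1) h
    simp only [e_zero, e_one] at h0 h1
    exact ⟨h0, h1⟩
  · rintro ⟨rfl, rfl⟩; rfl

lemma eq_e (m : Fin 2 →₀ ℕ) : m = e (m 0) (m 1) := by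
  ext i
  fin_cases i
  · simp [e]
  · simp [e]

/-- sanity check: the position function is compatible with the degree-lexicographic ordering -/
lemma degLexPos_lt_iff (m m' : Fin 2 →₀ ℕ) :
    degLexPos m < degLexPos m' ↔
      (m 0 + m 1 < m' 0 + m' 1) ∨ (m 0 + m 1 = m' 0 + m' 1 ∧ m' 0 < m 0) := by
  unfold degLexPos
  have key : ∀ a b : ℕ, a < b → a * (a + 1) / 2 + a < b * (b + 1) / 2 := by
    intro a b hab
    have h1 : (a + 1) * (a + 1 + 1) / 2 ≤ b * (b + 1) / 2 :=
      Nat.div_le_div_right (Nat.mul_le_mul hab (by omega))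
    have h2 : (a + 1) * (a + 1 + 1) = a * (a + 1) + 2 * (a + 1) := by ring
    omega
  constructor
  · intro h
    rcases lt_trichotomy (m 0 + m 1) (m' 0 + m' 1) with h1 | h1 | h1
    · exact Or.inl h1
    · right
      refine ⟨h1, ?_⟩
      rw [h1] at h
      omega
    · have := key _ _ h1
      omega
  · rintro (h1 | ⟨h1, h2⟩)
    · have := key _ _ h1
      omega
    · rw [h1]
      omega

/-- sanity check: every position is taken -/
lemma degLexPos_surjective : Function.Surjective degLexPos := by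
  intro n
  induction n with
  | zero => exact ⟨e 0 0, by simp [degLexPos, e_zero, e_one]⟩
  | succ n ih =>
    obtain ⟨m, hm⟩ := ih
    unfold degLexPos at hm
    by_cases h0 : m 0 = 0
    · refine ⟨e (m 1 + 1) 0, ?_⟩
      simp only [degLexPos, e_zero, e_one]
      rw [h0] at hm
      have h2 : (m 1 + 1 + 0) * (m 1 + 1 + 0 + 1) = (0 + m 1) * (0 + m 1 + 1) + 2 * (m 1 + 1) := by
        ring
      rw [h2]
      omega
    · refine ⟨e (m 0 - 1) (m 1 + 1), ?_⟩
      simp only [degLexPos, e_zero, e_one]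
      have h2 : m 0 - 1 + (m 1 + 1) = m 0 + m 1 := by omega
      rw [h2]
      omega


/-- the polynomial `(3 + 2 z1) (3 + 2 z2) (2 + z1 z2)^2`, expanded -/
noncomputable def cf : MvPolynomial (Fin 2) ℂ :=
  monomial (e 0 0) 36 + monomial (e 1 0) 24 + monomial (e 0 1) 24 + monomial (e 1 1) 52
    + monomial (e 2 1) 24 + monomial (e 1 2) 24 + monomial (e 2 2) 25 + monomial (e 3 2) 6
    + monomial (e 2 3) 6 + monomial (e 3 3) 4

lemma eval_cf (z : Fin 2 → ℂ) :
    eval z cf = (3 + 2 * z 0) * (3 + 2 * z 1) * (2 + z 0 * z 1) ^ 2 := by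
  simp only [cf, e, map_add, eval_monomial]
  simp only [Finsupp.prod_add_index', pow_zero, pow_add, implies_true, Finsupp.prod_single_index]
  ring

lemma cf_ne_zero_on (z : Fin 2 → ℂ) (hz : ∀ i, ‖z i‖ ≤ 1) : eval z cf ≠ 0 := by
  rw [eval_cf]
  have h1 : ∀ i, (3 : ℂ) + 2 * z i ≠ 0 := by
    intro i h
    have h2 : (3 : ℂ) = - (2 * z i) := by linear_combination h
    have h3 : ‖(3 : ℂ)‖ = ‖- (2 * z i)‖ := by rw [← h2]
    rw [norm_neg, norm_mul] at h3
    have := hz i
    norm_num at h3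
    linarith
  have h2 : (2 : ℂ) + z 0 * z 1 ≠ 0 := by
    intro h
    have h2 : (2 : ℂ) = - (z 0 * z 1) := by linear_combination h
    have h3 : ‖(2 : ℂ)‖ = ‖- (z 0 * z 1)‖ := by rw [← h2]
    rw [norm_neg, norm_mul] at h3
    have h4 : ‖z 0‖ * ‖z 1‖ ≤ 1 * 1 :=
      mul_le_mul (hz 0) (hz 1) (norm_nonneg _) zero_le_one
    norm_num at h3
    linarith
  exact mul_ne_zero (mul_ne_zero (h1 0) (h1 1)) (pow_ne_zero _ h2)

/-- general element of `P_2` -/
noncomputable def lin (a b c : ℂ) : MvPolynomial (Fin 2) ℂ := C a + C b * X 0 + C c * X 1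

lemma mem_approxSpace_two (p : MvPolynomial (Fin 2) ℂ) :
    p ∈ approxSpace 2 ↔ ∃ a b c : ℂ, p = lin a b c := by
  constructor
  · intro hp
    refine Submodule.span_induction ?_ ?_ ?_ ?_ hp
    · rintro x ⟨m, hm, rfl⟩
      have hcases : (m 0 = 0 ∧ m 1 = 0) ∨ (m 0 = 1 ∧ m 1 = 0) ∨ (m 0 = 0 ∧ m 1 = 1) := by
        unfold degLexPos at hm
        have hs : m 0 + m 1 ≤ 1 := by
          by_contra hcon
          have h2 : 2 ≤ m 0 + m 1 := by omega
          have h3 : 2 * (2 + 1) / 2 ≤ (m 0 + m 1) * (m 0 + m 1 + 1) / 2 :=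
            Nat.div_le_div_right (Nat.mul_le_mul h2 (by omega))
          omega
        omega
      rw [eq_e m]
      rcases hcases with ⟨h0, h1⟩ | ⟨h0, h1⟩ | ⟨h0, h1⟩
      · refine ⟨1, 0, 0, ?_⟩
        rw [h0, h1]
        simp [lin, e]
      · refine ⟨0, 1, 0, ?_⟩
        rw [h0, h1]
        simp [lin, e, X]
      · refine ⟨0, 0, 1, ?_⟩
        rw [h0, h1]
        simp [lin, e, X]
    · exact ⟨0, 0, 0, by simp [lin]⟩
    · rintro x y _ _ ⟨a, b, c, rfl⟩ ⟨a', b', c', rfl⟩
      refine ⟨a + a', b + b', c + c', ?_⟩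
      simp only [lin, map_add]
      ring
    · rintro t x _ ⟨a, b, c, rfl⟩
      refine ⟨t * a, t * b, t * c, ?_⟩
      simp only [lin, map_mul, smul_eq_C_mul]
      ring
  · rintro ⟨a, b, c, rfl⟩
    have h1 : (C a : MvPolynomial (Fin 2) ℂ) = a • monomial (e 0 0) 1 := by
      simp [e, smul_eq_C_mul]
    have h2 : (C b * X 0 : MvPolynomial (Fin 2) ℂ) = b • monomial (e 1 0) 1 := by
      simp [e, smul_eq_C_mul, X]
    have h3 : (C c * X 1 : MvPolynomial (Fin 2) ℂ) = c • monomial (e 0 1) 1 := by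
      simp [e, smul_eq_C_mul, X]
    rw [lin, h1, h2, h3]
    refine Submodule.add_mem _ (Submodule.add_mem _ ?_ ?_) ?_ <;>
    · refine Submodule.smul_mem _ _ (Submodule.subset_span ⟨_, ?_, rfl⟩)
      simp [degLexPos, e_zero, e_one]


lemma coeff_X0_mul (j k : ℕ) (p : MvPolynomial (Fin 2) ℂ) :
    coeff (e j k) (X 0 * p) = if j = 0 then 0 else coeff (e (j - 1) k) p := by
  rw [coeff_X_mul']
  rcases Nat.eq_zero_or_pos j with rfl | hj
  · simp [e]
  · have h1 : (0 : Fin 2) ∈ (e j k).support := by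
      rw [Finsupp.mem_support_iff, e_zero]; omega
    have h2 : e j k - Finsupp.single 0 1 = e (j - 1) k := by
      ext i
      fin_cases i
      · simp [e]
      · simp [e]
    rw [if_pos h1, h2, if_neg (by omega)]

lemma coeff_X1_mul (j k : ℕ) (p : MvPolynomial (Fin 2) ℂ) :
    coeff (e j k) (X 1 * p) = if k = 0 then 0 else coeff (e j (k - 1)) p := by
  rw [coeff_X_mul']
  rcases Nat.eq_zero_or_pos k with rfl | hk
  · simp [e]
  · have h1 : (1 : Fin 2) ∈ (e j k).support := by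
      rw [Finsupp.mem_support_iff, e_one]; omega
    have h2 : e j k - Finsupp.single 1 1 = e j (k - 1) := by
      ext i
      fin_cases i
      · simp [e]
      · simp [e]
    rw [if_pos h1, h2, if_neg (by omega)]

lemma coeff_one_e (j k : ℕ) :
    coeff (e j k) (1 : MvPolynomial (Fin 2) ℂ) = if j = 0 ∧ k = 0 then 1 else 0 := by
  have h1 : (1 : MvPolynomial (Fin 2) ℂ) = monomial (e 0 0) 1 := by simp [e]
  rw [h1, coeff_monomial]
  by_cases h : j = 0 ∧ k = 0
  · rw [if_pos h, if_pos (by rw [h.1, h.2])]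
  · rw [if_neg h, if_neg]
    rw [e_inj]
    rintro ⟨h1, h2⟩
    exact h ⟨h1.symm, h2.symm⟩

lemma coeff_lin (a b c : ℂ) (j k : ℕ) :
    coeff (e j k) (lin a b c * cf - 1) =
      a * coeff (e j k) cf + b * (if j = 0 then 0 else coeff (e (j - 1) k) cf)
        + c * (if k = 0 then 0 else coeff (e j (k - 1)) cf)
        - (if j = 0 ∧ k = 0 then 1 else 0) := by
  have h : lin a b c * cf - 1 = C a * cf + C b * (X 0 * cf) + C c * (X 1 * cf) - 1 := by
    rw [lin]; ring
  rw [h, coeff_sub, coeff_add, coeff_add, coeff_C_mul, coeff_C_mul, coeff_C_mul, coeff_X0_mul,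
    coeff_X1_mul, coeff_one_e]

lemma coeff_cf (j k : ℕ) : coeff (e j k) cf =
    (if 0 = j ∧ 0 = k then 36 else 0) + (if 1 = j ∧ 0 = k then 24 else 0)
    + (if 0 = j ∧ 1 = k then 24 else 0) + (if 1 = j ∧ 1 = k then 52 else 0)
    + (if 2 = j ∧ 1 = k then 24 else 0) + (if 1 = j ∧ 2 = k then 24 else 0)
    + (if 2 = j ∧ 2 = k then 25 else 0) + (if 3 = j ∧ 2 = k then 6 else 0)
    + (if 2 = j ∧ 3 = k then 6 else 0) + (if 3 = j ∧ 3 = k then 4 else 0) := by
  simp only [cf, coeff_add, coeff_monomial, e_inj]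

lemma coeff_cf_large (j k : ℕ) (h : 4 ≤ j ∨ 4 ≤ k) : coeff (e j k) cf = 0 := by
  rw [coeff_cf]
  rcases h with h | h
  · simp [show ¬ (0 = j) by omega, show ¬ (1 = j) by omega, show ¬ (2 = j) by omega,
      show ¬ (3 = j) by omega]
  · simp [show ¬ (0 = k) by omega, show ¬ (1 = k) by omega, show ¬ (2 = k) by omega,
      show ¬ (3 = k) by omega]

/-- the index box containing the supports of all `p * f - 1`, `p ∈ P_2` -/
noncomputable def box : Finset (Fin 2 →₀ ℕ) :=
  (Finset.range 5 ×ˢ Finset.range 5).image (fun jk => e jk.1 jk.2)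

lemma sum_box (g : (Fin 2 →₀ ℕ) → ℝ) :
    ∑ m ∈ box, g m = ∑ j ∈ Finset.range 5, ∑ k ∈ Finset.range 5, g (e j k) := by
  rw [box, Finset.sum_image]
  · exact Finset.sum_product _ _ _
  · rintro ⟨j, k⟩ _ ⟨j', k'⟩ _ h
    simp only [e_inj] at h
    exact Prod.ext h.1 h.2

lemma sum_support (a b c : ℂ) :
    ∑ m ∈ (lin a b c * cf - 1).support, ‖coeff m (lin a b c * cf - 1)‖ ^ 2 =
      ∑ j ∈ Finset.range 5, ∑ k ∈ Finset.range 5, ‖coeff (e j k) (lin a b c * cf - 1)‖ ^ 2 := by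
  rw [← sum_box (fun m => ‖coeff m (lin a b c * cf - 1)‖ ^ 2)]
  apply Finset.sum_subset
  · intro m hm
    rw [mem_support_iff] at hm
    by_contra hbox
    apply hm
    rw [eq_e m, coeff_lin]
    have hlarge : 5 ≤ m 0 ∨ 5 ≤ m 1 := by
      by_contra hcon
      push Not at hcon
      apply hbox
      rw [box, Finset.mem_image]
      exact ⟨(m 0, m 1), by simp; omega, (eq_e m).symm⟩
    rw [coeff_cf_large (m 0) (m 1) (by omega), coeff_cf_large (m 0 - 1) (m 1) (by omega),
      coeff_cf_large (m 0) (m 1 - 1) (by omega)]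
    have h0 : ¬ (m 0 = 0 ∧ m 1 = 0) := by omega
    simp only [if_neg h0, ite_self, mul_zero, add_zero, sub_zero]
  · intro m _ hm
    rw [notMem_support_iff] at hm
    simp [hm]

/-- the quadratic form of the Gram matrix of `f, z1 f, z2 f` (real variables) -/
def gram (a b c : ℝ) : ℝ :=
  7017 * (a ^ 2 + b ^ 2 + c ^ 2) + 8268 * a * (b + c) + 2376 * b * c

lemma sum_formula (a b c : ℂ) :
    ∑ m ∈ (lin a b c * cf - 1).support, ‖coeff m (lin a b c * cf - 1)‖ ^ 2 =
      gram a.re b.re c.re + gram a.im b.im c.im - 72 * a.re + 1 := by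
  rw [sum_support]
  simp only [Finset.sum_range_succ, Finset.sum_range_zero, coeff_lin, coeff_cf]
  norm_num
  simp only [mul_pow, Complex.sq_norm, Complex.normSq_apply]
  simp
  unfold gram
  ring


lemma gram_eq (a b c : ℝ) :
    gram a b c = 7017 * (a + 4134 / 7017 * (b + c)) ^ 2
      + (8205 / 2 - 4134 ^ 2 / 7017) * (b + c) ^ 2 + 5829 / 2 * (b - c) ^ 2 := by
  unfold gram; ring

lemma gram_nonneg (a b c : ℝ) : 0 ≤ gram a b c := by
  rw [gram_eq]
  have : (0 : ℝ) ≤ 8205 / 2 - 4134 ^ 2 / 7017 := by norm_num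
  positivity

lemma gram_eq_zero (a b c : ℝ) (h : gram a b c = 0) : a = 0 ∧ b = 0 ∧ c = 0 := by
  rw [gram_eq] at h
  have h0 : (0 : ℝ) < 8205 / 2 - 4134 ^ 2 / 7017 := by norm_num
  have h1 : 0 ≤ 7017 * (a + 4134 / 7017 * (b + c)) ^ 2 := by positivity
  have h2 : 0 ≤ (8205 / 2 - 4134 ^ 2 / 7017) * (b + c) ^ 2 := by positivity
  have h3 : 0 ≤ 5829 / 2 * (b - c) ^ 2 := by positivity
  have h4 : (b - c) ^ 2 = 0 := by linarith
  have h5 : (b + c) ^ 2 = 0 := by
    have h6 : (8205 / 2 - 4134 ^ 2 / 7017) * (b + c) ^ 2 = 0 := by linarith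
    rcases mul_eq_zero.mp h6 with h7 | h7
    · exact absurd h7 h0.ne'
    · exact h7
  have h6 : (a + 4134 / 7017 * (b + c)) ^ 2 = 0 := by linarith
  have h7 : b - c = 0 := by simpa using h4
  have h8 : b + c = 0 := by simpa using h5
  have h9 : a + 4134 / 7017 * (b + c) = 0 := by simpa using h6
  rw [h8] at h9
  refine ⟨by linarith, by linarith, by linarith⟩

/-- coefficients of the optimal approximant `q_2 = qa + qb (z1 + z2)` -/
noncomputable def qa : ℝ := 295380 / 23394573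
noncomputable def qb : ℝ := -148824 / 23394573

lemma gram_shift (a b c : ℝ) :
    gram a b c - 72 * a = (gram qa qb qb - 72 * qa) + gram (a - qa) (b - qb) (c - qb) := by
  unfold gram qa qb; ring

noncomputable def q2 : MvPolynomial (Fin 2) ℂ := lin (qa : ℂ) (qb : ℂ) (qb : ℂ)

lemma isOPA_q2 : IsOPA 2 cf q2 := by
  refine ⟨(mem_approxSpace_two _).2 ⟨_, _, _, rfl⟩, ?_⟩
  intro p hp
  obtain ⟨a, b, c, rfl⟩ := (mem_approxSpace_two _).1 hp
  unfold hardyNorm q2
  apply Real.sqrt_le_sqrt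
  rw [sum_formula, sum_formula]
  simp only [Complex.ofReal_re, Complex.ofReal_im]
  have h1 := gram_shift a.re b.re c.re
  have h2 := gram_nonneg (a.re - qa) (b.re - qb) (c.re - qb)
  have h3 := gram_nonneg a.im b.im c.im
  have h4 : gram 0 0 0 = 0 := by unfold gram; ring
  linarith

lemma unique_q2 (q : MvPolynomial (Fin 2) ℂ) (hq : IsOPA 2 cf q) : q = q2 := by
  obtain ⟨hq1, hq2⟩ := hq
  obtain ⟨a, b, c, rfl⟩ := (mem_approxSpace_two _).1 hq1
  have h := hq2 q2 ((mem_approxSpace_two _).2 ⟨_, _, _, rfl⟩)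
  unfold hardyNorm q2 at h
  rw [Real.sqrt_le_sqrt_iff (Finset.sum_nonneg fun _ _ => by positivity)] at h
  rw [sum_formula, sum_formula] at h
  simp only [Complex.ofReal_re, Complex.ofReal_im] at h
  have h1 := gram_shift a.re b.re c.re
  have h2 := gram_nonneg (a.re - qa) (b.re - qb) (c.re - qb)
  have h3 := gram_nonneg a.im b.im c.im
  have h4 : gram 0 0 0 = 0 := by unfold gram; ring
  obtain ⟨r1, r2, r3⟩ := gram_eq_zero _ _ _ (le_antisymm (by linarith) h2)
  obtain ⟨i1, i2, i3⟩ := gram_eq_zero _ _ _ (le_antisymm (by linarith) h3)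
  have ea : a = (qa : ℂ) := by
    apply Complex.ext
    · rw [Complex.ofReal_re]; linarith
    · rw [Complex.ofReal_im]; exact i1
  have eb : b = (qb : ℂ) := by
    apply Complex.ext
    · rw [Complex.ofReal_re]; linarith
    · rw [Complex.ofReal_im]; exact i2
  have ec : c = (qb : ℂ) := by
    apply Complex.ext
    · rw [Complex.ofReal_re]; linarith
    · rw [Complex.ofReal_im]; exact i3
  rw [ea, eb, ec, q2]

/-- The weak Shanks conjecture on the bidisk fails: there is a polynomial `f` without zeros in the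
closed bidisk and an index `n` such that the (unique) `n`-th optimal polynomial approximant `q` of
`1/f` in `H^2(D^2)`, with respect to the degree-lexicographic ordering, has a zero in the open
bidisk. -/
theorem result :
    ∃ f : MvPolynomial (Fin 2) ℂ,
      (∀ z : Fin 2 → ℂ, (∀ i, ‖z i‖ ≤ 1) → eval z f ≠ 0) ∧
      ∃ (n : ℕ) (q : MvPolynomial (Fin 2) ℂ),
        (IsOPA n f q ∧ ∀ q', IsOPA n f q' → q' = q) ∧
        ∃ z : Fin 2 → ℂ, (∀ i, ‖z i‖ < 1) ∧ eval z q = 0 := by
  refine ⟨cf, cf_ne_zero_on, 2, q2, ⟨isOPA_q2, unique_q2⟩, fun _ => (8205 / 8268 : ℝ), ?_, ?_⟩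
  · intro i
    rw [Complex.norm_real]
    norm_num
  · simp only [q2, lin, map_add, map_mul, eval_C, eval_X]
    rw [← Complex.ofReal_mul, ← Complex.ofReal_add, ← Complex.ofReal_add]
    norm_num [qa, qb]

end Pool.Agent.Results.MP_52e642_an.WeakShanksFalse
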